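import Pool.Agent.E8helper44.AntiRep

/-!
Antipodal bases in the complementary basis graph: the case of matroids representable over a field
of characteristic zero, or of characteristic larger than the rank.
-/

set_option autoImplicit false

namespace Pool.Agent.Results.MP_b1ff30_co.RepresentableH44

open Pool.Agent.E8helper44 Function

/-- Let `M` be a matroid on a finite type, represented by vectors `v` over a field `F`, and let `B`
be a base whose complement is also a base. If `F` has characteristic `0`, or characteristic larger
than the rank, then `B` can be turned into its complement by single-element exchanges such that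
every intermediate set is a base whose complement is a base. Moreover for every `Z ⊆ B` some such
set `S` with `S ∩ B = Z` can be reached from `B` in this way. -/
theorem result {α F W : Type*} [Finite α] (M : Matroid α) [Field F] [AddCommGroup W] [Module F W]
    (v : α → W) (hv : ∀ I : Set α, M.Indep I ↔ LinearIndepOn F v I)
    (B : Set α) (hB : M.IsBase B) (hB' : M.IsBase Bᶜ)
    (hF : ringChar F = 0 ∨ B.ncard < ringChar F) :
    Relation.ReflTransGen
      (fun X Y : Set α =>
        M.IsBase X ∧ M.IsBase Xᶜ ∧ M.IsBase Y ∧ M.IsBase Yᶜ ∧
          ∃ x ∈ X, ∃ y, y ∉ X ∧ Y = insert y (X \ {x}))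
      B Bᶜ ∧
    ∀ Z ⊆ B, ∃ S : Set α,
      Relation.ReflTransGen
        (fun X Y : Set α =>
          M.IsBase X ∧ M.IsBase Xᶜ ∧ M.IsBase Y ∧ M.IsBase Yᶜ ∧
            ∃ x ∈ X, ∃ y, y ∉ X ∧ Y = insert y (X \ {x}))
        B S ∧ S ∩ B = Z := by
  classical
  have : Fintype α := Fintype.ofFinite α
  -- the factorial of the rank is nonzero in `F`
  have hcardB : Fintype.card B = B.ncard := by
    rw [Set.ncard_eq_toFinset_card', Set.toFinset_card]
  have hfac : ((Fintype.card B).factorial : F) ≠ 0 := by
    rw [hcardB]
    rcases hF with h0 | hlt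
    · have : CharZero F := (CharP.ringChar_zero_iff_CharZero F).mp h0
      exact Nat.cast_ne_zero.mpr (Nat.factorial_ne_zero _)
    · intro h
      have hdvd : ringChar F ∣ (B.ncard).factorial := (ringChar.spec F _).mp h
      have hp : (ringChar F).Prime := by
        rcases CharP.char_is_prime_or_zero F (ringChar F) with h | h
        · exact h
        · omega
      have := (hp.dvd_factorial).mp hdvd
      omega
  -- coordinates
  have hli : LinearIndependent F (fun x : B => v x) := (hv B).mp hB.indep
  let b := Module.Basis.span hli
  have hmem : ∀ y, v y ∈ Submodule.span F (Set.range fun x : B => v x) := by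
    intro y
    have himg : (Set.range fun x : B => v x) = v '' B := by
      ext z
      simp
    rw [himg]
    by_cases hy : y ∈ B
    · exact Submodule.subset_span ⟨y, hy, rfl⟩
    · by_contra hns
      have h1 : LinearIndepOn F v (insert y B) :=
        (linearIndepOn_insert hy).mpr ⟨(hv B).mp hB.indep, hns⟩
      exact hy (hB.mem_of_insert_indep ((hv _).mpr h1))
  let a : α → B → F := fun y => b.equivFun ⟨v y, hmem y⟩
  have ha : ∀ I : Set α, M.Indep I ↔ LinearIndepOn F a I := by
    intro I
    rw [hv]
    have h1 := LinearMap.linearIndependent_iff (v := fun x : I => (⟨v x, hmem x⟩ :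
      Submodule.span F (Set.range fun x : B => v x)))
      (Submodule.subtype _) (Submodule.ker_subtype _)
    have h2 := LinearMap.linearIndependent_iff (v := fun x : I => (⟨v x, hmem x⟩ :
      Submodule.span F (Set.range fun x : B => v x)))
      (b.equivFun : _ →ₗ[F] (B → F)) (LinearEquiv.ker _)
    exact h1.trans h2.symm
  have hr : Set.range (Subtype.val : B → α) = B := Subtype.range_coe
  obtain ⟨c, hc1, hce, hperm, hbal⟩ := AntiRep.exists_weight M a ha (Subtype.val : B → α)
    Subtype.val_injective (by rw [hr]; exact hB) (by rw [hr]; exact hB')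
  have key : ∀ Z ⊆ B, ∃ S : Set α, Relation.ReflTransGen (AntiReach.Step M) B S ∧ S ∩ B = Z := by
    intro Z hZ
    have h := AntiReach.reach M (Subtype.val : B → α) Subtype.val_injective hfac c hc1 hce hperm
      hbal Z (by rw [hr]; exact hZ)
    rw [hr] at h
    exact h
  refine ⟨?_, key⟩
  obtain ⟨S, hS, hSB⟩ := key ∅ (Set.empty_subset _)
  have hSbase : M.IsBase S := by
    rcases Relation.ReflTransGen.cases_tail hS with h | ⟨X, -, hX⟩
    · rw [h]
      exact hB
    · exact hX.2.2.1
  have hsub : S ⊆ Bᶜ := by
    intro x hx hxB
    have : x ∈ S ∩ B := ⟨hx, hxB⟩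
    rw [hSB] at this
    exact this
  have hEq : S = Bᶜ := hSbase.eq_of_subset_isBase hB' hsub
  rw [← hEq]
  exact hS

end Pool.Agent.Results.MP_b1ff30_co.RepresentableH44
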